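import Pool.Agent.L0h80.HP.Few

/-!
# Computations without loops, resources, and the average-case bound
-/

set_option autoImplicit false

namespace Pool.Agent.L0h80.HP

open Pool.Agent.L0h32.HA

open Classical in
/-- The set of the configurations `c 0, ..., c T`. -/
noncomputable def vis {k : ℕ} {A : Type} {M : HeadAut k A} (c : ℕ → M.Cfg) (T : ℕ) : Finset M.Cfg :=
  (Finset.range (T + 1)).image c

/-- A computation can be replaced by one without repeated configurations, inside the set of the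
configurations of the given one. -/
theorem loop_free {k : ℕ} {A : Type} (M : HeadAut k A) {w : List A} {T : ℕ} {c : ℕ → M.Cfg}
    (hc : M.IsAccRun w T c) : ∃ T' g, M.IsAccRun w T' g ∧ T' + 1 ≤ (vis c T).card := by
  classical
  obtain ⟨h0, h1, h2⟩ := hc
  have hV : ∀ t ≤ T, c t ∈ vis c T := fun t ht =>
    Finset.mem_image.2 ⟨t, Finset.mem_range.2 (by omega), rfl⟩
  let r : M.Cfg → M.Cfg → Prop := fun a b => M.Step w a b ∧ b ∈ vis c T
  have hr : ∀ t < T, r (c t) (c (t + 1)) := fun t ht => ⟨h1 t ht, hV _ (by omega)⟩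
  have hex : ∃ T, ∃ d : M.Cfg, d.1 ∈ M.acc ∧ StepN r T M.init d := by
    refine ⟨T, c T, h2, ?_⟩
    have := StepN.of_fun hr (Nat.zero_le T) le_rfl
    rwa [h0] at this
  obtain ⟨d, hd, hst⟩ := Nat.find_spec hex
  set T' := Nat.find hex with hT
  obtain ⟨g, g0, gn, hg⟩ := hst.exists_fun
  refine ⟨T', g, ⟨g0, fun i hi => (hg i hi).1, by rw [gn]; exact hd⟩, ?_⟩
  have hinj : ∀ i j, i < j → j ≤ T' → g i ≠ g j := by
    intro i j hij hj he
    have w1 := StepN.of_fun hg (Nat.zero_le i) (by omega : i ≤ T')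
    have w2 := StepN.of_fun hg hj le_rfl
    rw [g0, he] at w1
    rw [gn] at w2
    have w3 := w1.add w2
    exact Nat.find_min hex (m := i - 0 + (T' - j)) (by omega) ⟨d, hd, w3⟩
  have hmem : ∀ t ≤ T', g t ∈ vis c T := by
    intro t ht
    cases t with
    | zero => rw [g0, ← h0]; exact hV 0 (Nat.zero_le _)
    | succ t => exact (hg t (by omega)).2
  have hcard : ((Finset.range (T' + 1)).image g).card = T' + 1 := by
    rw [Finset.card_image_of_injOn, Finset.card_range]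
    intro i hi j hj he
    have hi' : i < T' + 1 := by simpa using hi
    have hj' : j < T' + 1 := by simpa using hj
    rcases lt_trichotomy i j with h | h | h
    · exact absurd he (hinj _ _ h (by omega))
    · exact h
    · exact absurd he.symm (hinj _ _ h (by omega))
  rw [← hcard]
  apply Finset.card_le_card
  intro v hv
  obtain ⟨t, ht, rfl⟩ := Finset.mem_image.1 hv
  exact hmem t (by have := Finset.mem_range.1 ht; omega)

section Two

variable {l : ℕ} (M : HeadAut 2 Sym)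

/-- The word is accepted with few configurations or few reversals. -/
def Thrifty (l : ℕ) (w : List Sym) : Prop :=
  ∃ T c, M.IsAccRun w T c ∧
    (2 ^ 20 * (Nat.log 2 (Fintype.card M.Q) + 1) * (vis c T).card < l ^ 2 ∨
      2 ^ 20 * (Nat.log 2 (Fintype.card M.Q) + 1) * (HeadAut.revs c T + 1) < l)

lemma vis_pos (c : ℕ → M.Cfg) (T : ℕ) : 1 ≤ (vis c T).card := by
  classical
  refine Finset.card_pos.2 ⟨c 0, Finset.mem_image.2 ⟨0, by simp, rfl⟩⟩

lemma cheap_of_thrifty (w : List Sym) (h : Thrifty M l w) :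
    ∃ T c, M.IsAccRun w T c ∧ ∃ c1 ∈ Finset.Icc l (2 * l), ∃ c2 ∈ Finset.Icc (3 * l) (4 * l),
      bcount (ow M c1 c2) c T ≤ l / (600 * (Nat.log 2 (Fintype.card M.Q) + 1)) := by
  obtain ⟨T, c, hc, hr⟩ := h
  set lam := Nat.log 2 (Fintype.card M.Q) + 1 with hlam
  have hlam1 : 1 ≤ lam := by omega
  have hle : ∀ b : ℕ, 600 * lam * b ≤ l → b ≤ l / (600 * lam) := by
    intro b hb
    rw [Nat.le_div_iff_mul_le (by positivity)]
    rw [mul_comm]; exact hb
  rcases hr with h1 | h2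
  · obtain ⟨T', g, hg, hT⟩ := loop_free M hc
    obtain ⟨c1, hc1, c2, hc2, hb⟩ := exists_lines M l hg
    refine ⟨T', g, hg, c1, hc1, c2, hc2, hle _ ?_⟩
    set b := bcount (ow M c1 c2) g T' with hbdef
    by_contra hgt
    push Not at hgt
    have e0 : 2 ^ 20 * lam * (T' + 1) < l ^ 2 :=
      lt_of_le_of_lt (Nat.mul_le_mul_left _ hT) h1
    have e1 : (l + 1) * (600 * lam * b) ≤ 2400 * lam * T' := by
      calc (l + 1) * (600 * lam * b) = 600 * lam * ((l + 1) * b) := by ring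
        _ ≤ 600 * lam * (4 * T') := Nat.mul_le_mul_left _ hb
        _ = 2400 * lam * T' := by ring
    have e2 : 2400 * lam * T' ≤ 2 ^ 20 * lam * (T' + 1) := by
      calc 2400 * lam * T' ≤ 2 ^ 20 * lam * T' :=
            Nat.mul_le_mul_right _ (Nat.mul_le_mul_right _ (by norm_num))
        _ ≤ _ := Nat.mul_le_mul_left _ (by omega)
    have e3 : (l + 1) * l ≤ (l + 1) * (600 * lam * b) := Nat.mul_le_mul_left _ hgt.le
    nlinarith
  · refine ⟨T, c, hc, l, by simp; omega, 3 * l, by simp; omega, hle _ ?_⟩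
    have hb := bcount_le_revs M l (3 * l) hc
    calc 600 * lam * bcount (ow M l (3 * l)) c T ≤ 600 * lam * (4 * (HeadAut.revs c T + 1)) :=
          Nat.mul_le_mul_left _ hb
      _ = 2400 * lam * (HeadAut.revs c T + 1) := by ring
      _ ≤ 2 ^ 20 * lam * (HeadAut.revs c T + 1) := by
          refine Nat.mul_le_mul_right _ (Nat.mul_le_mul_right _ (by norm_num))
      _ ≤ l := h2.le

lemma not_thrifty_small (hl : l < 1024) (w : List Sym) : ¬ Thrifty M l w := by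
  rintro ⟨T, c, -, h | h⟩
  · have h1 : l ^ 2 ≤ 2 ^ 20 := by
      calc l ^ 2 ≤ 1024 ^ 2 := Nat.pow_le_pow_left hl.le 2
        _ = 2 ^ 20 := by norm_num
    have h2 : 2 ^ 20 ≤ 2 ^ 20 * (Nat.log 2 (Fintype.card M.Q) + 1) * (vis c T).card := by
      rw [mul_assoc]
      exact Nat.le_mul_of_pos_right _ (Nat.mul_pos (by omega) (vis_pos M c T))
    omega
  · have h3 : 2 ^ 20 ≤ 2 ^ 20 * (Nat.log 2 (Fintype.card M.Q) + 1) * (HeadAut.revs c T + 1) := by
      rw [mul_assoc]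
      exact Nat.le_mul_of_pos_right _ (by positivity)
    have : (1024 : ℕ) ≤ 2 ^ 20 := by norm_num
    omega

lemma exp_aux : (Real.exp (1 / 4) * (3 / 4)) ^ 20 ≤ 1 / 2 := by
  have h1 : Real.exp (1 / 4) ^ 20 = Real.exp 1 ^ 5 := by
    rw [← Real.exp_nat_mul, ← Real.exp_nat_mul]
    congr 1
    norm_num
  rw [mul_pow, h1]
  have h2 : Real.exp 1 ^ 5 ≤ 2.7182818286 ^ 5 :=
    pow_le_pow_left₀ (Real.exp_pos _).le Real.exp_one_lt_d9.le 5
  calc Real.exp 1 ^ 5 * (3 / 4) ^ 20 ≤ 2.7182818286 ^ 5 * (3 / 4) ^ 20 :=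
        mul_le_mul_of_nonneg_right h2 (by positivity)
    _ ≤ 1 / 2 := by norm_num

lemma root_aux {a : ℝ} (h : (8 * a) ^ 4 ≤ Real.exp ((l : ℝ) / 4) * 3072 ^ l) :
    8 * a ≤ 2 ^ (-(l : ℝ) / 80) * 8 ^ l := by
  have h1 : Real.exp ((l : ℝ) / 4) * 3072 ^ l = (Real.exp (1 / 4) * (3 / 4)) ^ l * (8 ^ l) ^ 4 := by
    rw [← pow_mul, mul_comm l 4, pow_mul, ← mul_pow]
    have e : Real.exp ((l : ℝ) / 4) = Real.exp (1 / 4) ^ l := by
      rw [← Real.exp_nat_mul]
      congr 1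
      ring
    rw [e, ← mul_pow]
    congr 1
    norm_num
    ring
  rw [h1] at h
  have h2 : ((8 * a) ^ 4) ^ 20 ≤ ((Real.exp (1 / 4) * (3 / 4)) ^ l * (8 ^ l) ^ 4) ^ 20 :=
    pow_le_pow_left₀ (by positivity) h 20
  have h3 : ((Real.exp (1 / 4) * (3 / 4)) ^ l * ((8 : ℝ) ^ l) ^ 4) ^ 20 =
      ((Real.exp (1 / 4) * (3 / 4)) ^ 20) ^ l * ((8 : ℝ) ^ l) ^ 80 := by
    have e1 : ((Real.exp (1 / 4) * (3 / 4)) ^ l) ^ 20 = ((Real.exp (1 / 4) * (3 / 4)) ^ 20) ^ l := by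
      rw [← pow_mul, ← pow_mul, mul_comm l 20]
    have e2 : (((8 : ℝ) ^ l) ^ 4) ^ 20 = ((8 : ℝ) ^ l) ^ 80 := by rw [← pow_mul]
    rw [mul_pow, e1, e2]
  have h4 : ((Real.exp (1 / 4) * (3 / 4)) ^ 20) ^ l ≤ (1 / 2 : ℝ) ^ l :=
    pow_le_pow_left₀ (by positivity) exp_aux l
  have h5 : ((2 : ℝ) ^ (-(l : ℝ) / 80) * 8 ^ l) ^ 80 = (1 / 2 : ℝ) ^ l * ((8 : ℝ) ^ l) ^ 80 := by
    rw [mul_pow]
    congr 1
    rw [← Real.rpow_natCast, ← Real.rpow_mul (by norm_num)]
    rw [show -(l : ℝ) / 80 * ((80 : ℕ) : ℝ) = -(l : ℝ) by push_cast; ring]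
    rw [Real.rpow_neg (by norm_num), Real.rpow_natCast, one_div, inv_pow]
  have h6 : (8 * a) ^ 80 ≤ ((2 : ℝ) ^ (-(l : ℝ) / 80) * 8 ^ l) ^ 80 := by
    rw [h5]
    calc (8 * a) ^ 80 = ((8 * a) ^ 4) ^ 20 := by rw [← pow_mul]
      _ ≤ _ := h2
      _ = _ := h3
      _ ≤ _ := mul_le_mul_of_nonneg_right h4 (by positivity)
  exact le_of_pow_le_pow_left₀ (by norm_num) (by positivity) h6

/-- The number of errors which is allowed. -/
lemma err_aux {E : ℕ} (h : (E : ℝ) ≤ 2 ^ (-(l : ℝ) / 9) * 8 ^ l) : E ^ 4 ≤ 3072 ^ l := by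
  have h1 : (E : ℝ) ^ 4 ≤ (2 ^ (-(l : ℝ) / 9) * 8 ^ l) ^ 4 := pow_le_pow_left₀ (by positivity) h 4
  have h2 : ((2 ^ (-(l : ℝ) / 9) * (8 : ℝ) ^ l) ^ 4) ^ 9 ≤ ((3072 : ℝ) ^ l) ^ 9 := by
    have e1 : ((2 : ℝ) ^ (-(l : ℝ) / 9)) ^ 9 = (1 / 2) ^ l := by
      rw [← Real.rpow_natCast, ← Real.rpow_mul (by norm_num)]
      rw [show -(l : ℝ) / 9 * ((9 : ℕ) : ℝ) = -(l : ℝ) by push_cast; ring]
      rw [Real.rpow_neg (by norm_num), Real.rpow_natCast, one_div, inv_pow]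
    have e2 : ((2 ^ (-(l : ℝ) / 9) * (8 : ℝ) ^ l) ^ 4) ^ 9 =
        (((2 : ℝ) ^ (-(l : ℝ) / 9)) ^ 9) ^ 4 * ((8 : ℝ) ^ l) ^ 36 := by ring
    rw [e2, e1]
    have e3 : ((1 / 2 : ℝ) ^ l) ^ 4 * ((8 : ℝ) ^ l) ^ 36 = ((1 / 2 : ℝ) ^ 4 * 8 ^ 36) ^ l := by
      rw [mul_pow, ← pow_mul, ← pow_mul, ← pow_mul, ← pow_mul, mul_comm l 4, mul_comm l 36]
    have e4 : ((3072 : ℝ) ^ l) ^ 9 = (3072 ^ 9) ^ l := by
      rw [← pow_mul, ← pow_mul, mul_comm]
    rw [e3, e4]
    exact pow_le_pow_left₀ (by positivity) (by norm_num) l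
  have h3 := le_of_pow_le_pow_left₀ (by norm_num) (by positivity) h2
  exact_mod_cast h1.trans h3

open Classical in
/-- Few triples are thrifty. -/
theorem few_thrifty (hM : (((Finset.univ.filter
      (fun a : (Fin l → Bool) × (Fin l → Bool) × (Fin l → Bool) =>
      W a.1 a.2.1 a.2.2 ∈ M.lang ∧ sg a.1 a.2.1 a.2.2 = 1)).card : ℕ) : ℝ) ≤
      2 ^ (-(l : ℝ) / 9) * 8 ^ l) :
    8 * ((Finset.univ.filter (fun a : (Fin l → Bool) × (Fin l → Bool) × (Fin l → Bool) =>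
      sg a.1 a.2.1 a.2.2 = -1 ∧ Thrifty M l (W a.1 a.2.1 a.2.2))).card : ℝ) ≤
      2 ^ (-(l : ℝ) / 80) * 8 ^ l := by
  rcases Nat.lt_or_ge l 1024 with hl' | hl'
  · rw [Finset.filter_false_of_mem (fun a _ h => not_thrifty_small M hl' _ h.2)]
    simp
    positivity
  · refine root_aux ?_
    have hs : Fintype.card M.Q ≤ 2 ^ (Nat.log 2 (Fintype.card M.Q) + 1) :=
      (Nat.lt_pow_succ_log_self (by norm_num) _).le
    exact few_cheap M hl' (l / (600 * (Nat.log 2 (Fintype.card M.Q) + 1))) _ hs (by omega)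
      (Nat.mul_div_le l _) _ (err_aux hM) le_rfl _ (fun a ha => (Finset.mem_filter.1 ha).2.1)
      (fun a ha => cheap_of_thrifty M _ (Finset.mem_filter.1 ha).2.2)

lemma W_inj : Function.Injective
    (fun a : (Fin l → Bool) × (Fin l → Bool) × (Fin l → Bool) => W a.1 a.2.1 a.2.2) := by
  rintro ⟨x, y, z⟩ ⟨x', y', z'⟩ h
  have h' : W x y z = W x' y' z' := h
  have hx : x = x' := by
    funext t
    have := cell_x x y z t
    rw [h', cell_x] at this
    injection this with h1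
    injection h1 with h2
    exact h2.symm
  have hy : y = y' := by
    funext t
    have := cell_y x y z t
    rw [h', cell_y] at this
    injection this with h1
    injection h1 with h2
    exact h2.symm
  have hz : z = z' := by
    funext t
    have := cell_z x y z t
    rw [h', cell_z] at this
    injection this with h1
    injection h1 with h2
    exact h2.symm
  rw [hx, hy, hz]

/-- The words `x a^l y b^l z`. -/
def Fam (l : ℕ) : Set (List Sym) := {w | ∃ x y z : Fin l → Bool, w = W x y z}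

open Classical in
lemma ncard_fam (p : List Sym → Prop) : {w | w ∈ Fam l ∧ p w}.ncard =
    (Finset.univ.filter (fun a : (Fin l → Bool) × (Fin l → Bool) × (Fin l → Bool) =>
      p (W a.1 a.2.1 a.2.2))).card := by
  rw [← Finset.card_image_of_injective _ (W_inj (l := l)), ← Set.ncard_coe_finset]
  congr 1
  ext w
  simp only [Set.mem_ofPred_eq, Finset.coe_image, Set.mem_image, Finset.mem_coe, Finset.mem_filter,
    Finset.mem_univ, true_and, Fam]
  constructor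
  · rintro ⟨⟨x, y, z, rfl⟩, h⟩
    exact ⟨(x, y, z), h, rfl⟩
  · rintro ⟨⟨x, y, z⟩, h, rfl⟩
    exact ⟨⟨x, y, z, rfl⟩, h⟩

lemma many (hl : 1 ≤ l) : 8 ^ l ≤ 8 * {w | w ∈ Fam l ∧ w ∈ P.lang}.ncard := by
  classical
  rw [ncard_fam]
  have h := ones_card (l := l) hl
  have he : (Finset.univ.filter (fun a : (Fin l → Bool) × (Fin l → Bool) × (Fin l → Bool) =>
      W a.1 a.2.1 a.2.2 ∈ P.lang)) =
      (Finset.univ.filter (fun a : (Fin l → Bool) × (Fin l → Bool) × (Fin l → Bool) =>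
      sg a.1 a.2.1 a.2.2 = -1)) := by
    refine Finset.filter_congr fun a _ => W_mem_lang _ _ _ hl
  rw [he]
  exact_mod_cast h

lemma card_fam : (Fam l).ncard = 8 ^ l := by
  classical
  have h := ncard_fam (l := l) (fun _ => True)
  simp only [and_true, Set.ofPred_mem_eq, Finset.filter_true, Finset.card_univ, Fintype.card_prod,
    Fintype.card_fun, Fintype.card_bool, Fintype.card_fin] at h
  rw [h, ← mul_pow, ← mul_pow]
  norm_num

/-- The average-case bound. -/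
theorem average (hl : 1 ≤ l)
    (hM : ({w | w ∈ Fam l ∧ w ∈ M.lang ∧ w ∉ P.lang}.ncard : ℝ) ≤ 2 ^ (-(l : ℝ) / 9) * 8 ^ l) :
    ({w | w ∈ Fam l ∧ w ∈ P.lang ∧ Thrifty M l w}.ncard : ℝ) ≤
      2 ^ (-(l : ℝ) / 80) * ({w | w ∈ Fam l ∧ w ∈ P.lang}.ncard : ℝ) := by
  classical
  have hP : ∀ a : (Fin l → Bool) × (Fin l → Bool) × (Fin l → Bool),
      W a.1 a.2.1 a.2.2 ∈ P.lang ↔ sg a.1 a.2.1 a.2.2 = -1 := fun a => W_mem_lang _ _ _ hl
  have hN : ∀ a : (Fin l → Bool) × (Fin l → Bool) × (Fin l → Bool),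
      W a.1 a.2.1 a.2.2 ∉ P.lang ↔ sg a.1 a.2.1 a.2.2 = 1 := by
    intro a
    rw [hP]
    rcases sg_cases a.1 a.2.1 a.2.2 with h | h <;> simp [h]
  have c1 : ∀ (p q : (Fin l → Bool) × (Fin l → Bool) × (Fin l → Bool) → Prop) [DecidablePred p]
      [DecidablePred q], (∀ a, p a ↔ q a) →
      (Finset.univ.filter p).card = (Finset.univ.filter q).card := by
    intro p q _ _ h
    congr 1
    ext a
    simp [h]
  rw [ncard_fam (fun w => w ∈ M.lang ∧ w ∉ P.lang)] at hM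
  have h1 := few_thrifty M (l := l) (by
    refine le_trans (le_of_eq ?_) hM
    rw [Nat.cast_inj]
    exact @c1 _ _ _ (fun a => Classical.propDecidable _) (fun a => by rw [hN]))
  rw [ncard_fam (fun w => w ∈ P.lang ∧ Thrifty M l w)]
  have h0 : ∀ inst : DecidablePred (fun a : (Fin l → Bool) × (Fin l → Bool) × (Fin l → Bool) =>
      W a.1 a.2.1 a.2.2 ∈ P.lang ∧ Thrifty M l (W a.1 a.2.1 a.2.2)),
      ((@Finset.filter _ _ inst Finset.univ).card : ℝ) * 8 ≤ 2 ^ (-(l : ℝ) / 80) * 8 ^ l := by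
    intro inst
    refine le_trans (le_of_eq ?_) h1
    rw [mul_comm]
    congr 1
    rw [Nat.cast_inj]
    exact @c1 _ _ _ _ (fun a => by rw [hP])
  have h6 := h0 (fun a => Classical.propDecidable _)
  have h2 := many (l := l) hl
  have h3 : (8 : ℝ) ^ l ≤ 8 * ({w | w ∈ Fam l ∧ w ∈ P.lang}.ncard : ℝ) := by exact_mod_cast h2
  have h4 : (0 : ℝ) < 2 ^ (-(l : ℝ) / 80) := by positivity
  have h5 : 2 ^ (-(l : ℝ) / 80) * (8 : ℝ) ^ l ≤
      2 ^ (-(l : ℝ) / 80) * (8 * ({w | w ∈ Fam l ∧ w ∈ P.lang}.ncard : ℝ)) :=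
    mul_le_mul_of_nonneg_left h3 h4.le
  linarith

end Two

end Pool.Agent.L0h80.HP
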