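import Pool.Agent.L0h32.HA.Main

/-!
# Few words are accepted cheaply by two heads

The counting argument of `Pool.Agent.L0h32.HA.no_cheap` for partial languages: a two-head automaton which accepts
no word `x a^l y b^l z` with `∑ x_t y_t z_t` even accepts only an exponentially small part of these words with few
crossings of two lines.
-/

set_option autoImplicit false

namespace Pool.Agent.L0h80.HP

open Pool.Agent.L0h32.HA

/-- The numerical inequality. -/
lemma numeric_exp (l s R lam N : ℕ) (hl : 1024 ≤ l) (hs : s ≤ 2 ^ lam)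
    (hlam : 1 ≤ lam) (hR : 600 * lam * R ≤ l) (hN : N ≤ 168 * s * l) :
    (5308416 : ℝ) * ((l : ℝ) + 1) ^ 8 *
      (((2 : ℝ) ^ (lam + 14)) ^ R * (1 + 1 / (2 : ℝ) ^ (lam + 14)) ^ N) ^ 4 < Real.exp (l / 4) := by
  have hl' : (1024 : ℝ) ≤ l := by exact_mod_cast hl
  have hlpos : (0 : ℝ) < l := by linarith
  -- the certificate count
  have h1 : ((2 : ℝ) ^ (lam + 14)) ^ R ≤ Real.exp (15 * lam * R * Real.log 2) := by
    rw [← pow_mul, ← Real.rpow_natCast, Real.rpow_def_of_pos (by norm_num)]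
    apply Real.exp_le_exp.2
    rw [mul_comm]
    refine mul_le_mul_of_nonneg_right ?_ (Real.log_nonneg (by norm_num))
    push_cast
    have : ((lam : ℝ) + 14) ≤ 15 * lam := by
      have : (1 : ℝ) ≤ lam := by exact_mod_cast hlam
      linarith
    exact mul_le_mul_of_nonneg_right this (by positivity)
  have h2 : (1 + 1 / (2 : ℝ) ^ (lam + 14)) ^ N ≤ Real.exp (168 * l / 16384) := by
    have hle : 1 + 1 / (2 : ℝ) ^ (lam + 14) ≤ Real.exp (1 / (2 : ℝ) ^ (lam + 14)) := by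
      have := Real.add_one_le_exp (1 / (2 : ℝ) ^ (lam + 14))
      linarith
    refine (pow_le_pow_left₀ (by positivity) hle N).trans ?_
    rw [← Real.exp_nat_mul]
    apply Real.exp_le_exp.2
    have hN' : (N : ℝ) ≤ 168 * s * l := by exact_mod_cast hN
    have hs' : (s : ℝ) ≤ 2 ^ lam := by exact_mod_cast hs
    have hpos : (0 : ℝ) < 2 ^ lam := by positivity
    rw [pow_add, mul_one_div]
    rw [div_le_div_iff₀ (by positivity) (by norm_num)]
    have : (2 : ℝ) ^ 14 = 16384 := by norm_num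
    rw [this]
    have h3 : (N : ℝ) ≤ 168 * l * 2 ^ lam := by
      refine hN'.trans ?_
      have : (168 : ℝ) * s * l = 168 * l * s := by ring
      rw [this]
      exact mul_le_mul_of_nonneg_left hs' (by positivity)
    nlinarith
  have hlog2 : Real.log 2 < 0.6931471808 := Real.log_two_lt_d9
  have h3 : (((2 : ℝ) ^ (lam + 14)) ^ R * (1 + 1 / (2 : ℝ) ^ (lam + 14)) ^ N) ^ 4 ≤
      Real.exp (l / 8) := by
    have h4 : ((2 : ℝ) ^ (lam + 14)) ^ R * (1 + 1 / (2 : ℝ) ^ (lam + 14)) ^ N ≤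
        Real.exp (15 * lam * R * Real.log 2 + 168 * l / 16384) := by
      rw [Real.exp_add]
      exact mul_le_mul h1 h2 (by positivity) (Real.exp_pos _).le
    refine (pow_le_pow_left₀ (by positivity) h4 4).trans ?_
    rw [← Real.exp_nat_mul]
    apply Real.exp_le_exp.2
    push_cast
    have hR' : (600 : ℝ) * lam * R ≤ l := by exact_mod_cast hR
    have hlr : (0 : ℝ) ≤ lam * R := by positivity
    have h5 : 60 * ((lam : ℝ) * R) * Real.log 2 ≤ 60 * ((lam : ℝ) * R) * 0.6931471808 :=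
      mul_le_mul_of_nonneg_left hlog2.le (by positivity)
    nlinarith
  have h5 : (5308416 : ℝ) * ((l : ℝ) + 1) ^ 8 < Real.exp (l / 8) := by
    have e1 : Real.exp (l / 8) = (Real.exp (l / 64)) ^ 8 := by
      rw [← Real.exp_nat_mul]; congr 1; push_cast; ring
    have e2 : Real.exp (l / 64) = (Real.exp (l / 1024)) ^ 16 := by
      rw [← Real.exp_nat_mul]; congr 1; push_cast; ring
    have e3 : 1 + (l : ℝ) / 1024 ≤ Real.exp (l / 1024) := by
      have := Real.add_one_le_exp ((l : ℝ) / 1024)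
      linarith
    have e4 : (2 : ℝ) ≤ 1 + (l : ℝ) / 1024 := by
      have : (1 : ℝ) ≤ l / 1024 := by rw [le_div_iff₀ (by norm_num)]; linarith
      linarith
    have e5 : 7 * ((l : ℝ) + 1) ≤ Real.exp (l / 64) := by
      rw [e2]
      have : (1 + (l : ℝ) / 1024) ^ 16 ≤ (Real.exp (l / 1024)) ^ 16 :=
        pow_le_pow_left₀ (by positivity) e3 16
      refine le_trans ?_ this
      have h6 : (2 : ℝ) ^ 15 * (1 + (l : ℝ) / 1024) ≤ (1 + (l : ℝ) / 1024) ^ 16 := by
        rw [pow_succ (1 + (l : ℝ) / 1024) 15]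
        exact mul_le_mul_of_nonneg_right (pow_le_pow_left₀ (by norm_num) e4 15) (by positivity)
      refine le_trans ?_ h6
      norm_num
      linarith
    rw [e1]
    calc (5308416 : ℝ) * ((l : ℝ) + 1) ^ 8 < 7 ^ 8 * ((l : ℝ) + 1) ^ 8 := by
          refine mul_lt_mul_of_pos_right (by norm_num) (by positivity)
      _ = (7 * ((l : ℝ) + 1)) ^ 8 := by rw [mul_pow]
      _ ≤ _ := pow_le_pow_left₀ (by positivity) e5 8
  calc (5308416 : ℝ) * ((l : ℝ) + 1) ^ 8 *
      (((2 : ℝ) ^ (lam + 14)) ^ R * (1 + 1 / (2 : ℝ) ^ (lam + 14)) ^ N) ^ 4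
      ≤ (5308416 : ℝ) * ((l : ℝ) + 1) ^ 8 * Real.exp (l / 8) :=
        mul_le_mul_of_nonneg_left h3 (by positivity)
    _ < Real.exp (l / 8) * Real.exp (l / 8) := by
        refine mul_lt_mul_of_pos_right h5 (Real.exp_pos _)
    _ = Real.exp (l / 4) := by rw [← Real.exp_add]; congr 1; ring


section Cyl

variable {l : ℕ}

open Classical in
/-- In a cylinder intersection the words with odd sum are hardly more than those with even sum. -/
theorem cyl_err (p0 p1 p2 : (Fin l → Bool) → (Fin l → Bool) → Prop) :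
    (∑ a ∈ Finset.univ.filter (fun a : (Fin l → Bool) × (Fin l → Bool) × (Fin l → Bool) =>
      p0 a.2.1 a.2.2 ∧ p1 a.1 a.2.2 ∧ p2 a.1 a.2.1), sg a.1 a.2.1 a.2.2) ^ 4 ≤ 3072 ^ l := by
  let i0 : (Fin l → Bool) → (Fin l → Bool) → ℤ := fun y z => if p0 y z then 1 else 0
  let i1 : (Fin l → Bool) → (Fin l → Bool) → ℤ := fun y z => if p1 y z then 1 else 0
  let i2 : (Fin l → Bool) → (Fin l → Bool) → ℤ := fun y z => if p2 y z then 1 else 0
  have hb : ∀ (p : (Fin l → Bool) → (Fin l → Bool) → Prop) (x y : Fin l → Bool),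
      (if p x y then (1 : ℤ) else 0) ^ 2 ≤ 1 := by
    intro p x y; split_ifs <;> simp
  have hS := S_pow_le i0 i1 i2 (hb p0) (hb p1) (hb p2)
  have he : S i0 i1 i2 = ∑ a ∈ Finset.univ.filter
      (fun a : (Fin l → Bool) × (Fin l → Bool) × (Fin l → Bool) =>
      p0 a.2.1 a.2.2 ∧ p1 a.1 a.2.2 ∧ p2 a.1 a.2.1), sg a.1 a.2.1 a.2.2 := by
    rw [Finset.sum_filter, Fintype.sum_prod_type]
    unfold S
    refine Finset.sum_congr rfl fun x _ => ?_
    rw [Fintype.sum_prod_type]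
    refine Finset.sum_congr rfl fun y _ => ?_
    rw [Finset.mul_sum]
    refine Finset.sum_congr rfl fun z _ => ?_
    simp only [i0, i1, i2]
    by_cases a0 : p0 y z <;> by_cases a1 : p1 x z <;> by_cases a2 : p2 x y <;>
      simp [a0, a1, a2]
  rw [he] at hS
  exact hS

open Classical in
lemma odd_le (C : Finset ((Fin l → Bool) × (Fin l → Bool) × (Fin l → Bool))) (n E : ℕ)
    (hn : ∀ m : ℕ, m ^ 4 ≤ 3072 ^ l → m ≤ n)
    (hC : (∑ a ∈ C, sg a.1 a.2.1 a.2.2) ^ 4 ≤ 3072 ^ l)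
    (hE : (C.filter (fun a => sg a.1 a.2.1 a.2.2 = 1)).card ≤ E) :
    (C.filter (fun a => sg a.1 a.2.1 a.2.2 = -1)).card ≤ n + E := by
  set O := (C.filter (fun a => sg a.1 a.2.1 a.2.2 = -1)).card with hO
  set V := (C.filter (fun a => sg a.1 a.2.1 a.2.2 = 1)).card with hV
  have h1 : ∑ a ∈ C, sg a.1 a.2.1 a.2.2 = (V : ℤ) - O := by
    rw [← Finset.sum_filter_add_sum_filter_not C (fun a => sg a.1 a.2.1 a.2.2 = 1)]
    have e1 : ∑ a ∈ C.filter (fun a => sg a.1 a.2.1 a.2.2 = 1), sg a.1 a.2.1 a.2.2 = V := by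
      rw [Finset.sum_congr rfl (fun a ha => (Finset.mem_filter.1 ha).2)]
      simp [hV]
    have e2 : C.filter (fun a => ¬ sg a.1 a.2.1 a.2.2 = 1) =
        C.filter (fun a => sg a.1 a.2.1 a.2.2 = -1) := by
      refine Finset.filter_congr fun a _ => ?_
      rcases sg_cases a.1 a.2.1 a.2.2 with h | h <;> simp [h]
    have e3 : ∑ a ∈ C.filter (fun a => ¬ sg a.1 a.2.1 a.2.2 = 1), sg a.1 a.2.1 a.2.2 = -(O : ℤ) := by
      rw [e2, Finset.sum_congr rfl (fun a ha => (Finset.mem_filter.1 ha).2)]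
      simp [hO]
    rw [e1, e3]
    ring
  rw [h1] at hC
  by_contra hcon
  push Not at hcon
  have h2 : (O - V) ^ 4 ≤ 3072 ^ l := by
    have h3 : ((O - V : ℕ) : ℤ) = (O : ℤ) - V := by
      push_cast [Nat.cast_sub (show V ≤ O by omega)]
      ring
    have h4 : (((O - V : ℕ) : ℤ)) ^ 4 ≤ 3072 ^ l := by
      rw [h3]
      calc ((O : ℤ) - V) ^ 4 = ((V : ℤ) - O) ^ 4 := by ring
        _ ≤ _ := hC
    exact_mod_cast h4
  have h5 := hn _ h2
  omega

end Cyl

section Two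

variable {l : ℕ} (M : HeadAut 2 Sym)

open Classical in
/-- Few accepted words of the family have computations with few boundary edges, if no word outside
the language is accepted. -/
theorem few_cheap (hl : 1024 ≤ l) (R lam : ℕ) (hs : Fintype.card M.Q ≤ 2 ^ lam)
    (hlam : 1 ≤ lam) (hR : 600 * lam * R ≤ l)
    (E : ℕ) (hE : E ^ 4 ≤ 3072 ^ l)
    (hM : (Finset.univ.filter (fun a : (Fin l → Bool) × (Fin l → Bool) × (Fin l → Bool) =>
      W a.1 a.2.1 a.2.2 ∈ M.lang ∧ sg a.1 a.2.1 a.2.2 = 1)).card ≤ E)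
    (Ch : Finset ((Fin l → Bool) × (Fin l → Bool) × (Fin l → Bool)))
    (hodd : ∀ a ∈ Ch, sg a.1 a.2.1 a.2.2 = -1)
    (hcheap : ∀ a ∈ Ch, ∃ T c, M.IsAccRun (W a.1 a.2.1 a.2.2) T c ∧
      ∃ c1 ∈ Finset.Icc l (2 * l), ∃ c2 ∈ Finset.Icc (3 * l) (4 * l),
        bcount (ow M c1 c2) c T ≤ R) :
    (8 * (Ch.card : ℝ)) ^ 4 ≤ Real.exp (l / 4) * 3072 ^ l := by
  -- the sets described by the certificates
  let C : ℕ → ℕ → Fin 3 → Finset (M.Cfg × Fin 3) →
      Finset ((Fin l → Bool) × (Fin l → Bool) × (Fin l → Bool)) := fun c1 c2 lf S =>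
    Finset.univ.filter (fun a =>
      Psi (ow M c1 c2) (M.Step (W (fun _ => false) a.2.1 a.2.2)) (Fa M) M.init lf
        (Finset.insertNone S) 0 ∧
      Psi (ow M c1 c2) (M.Step (W a.1 (fun _ => false) a.2.2)) (Fa M) M.init lf
        (Finset.insertNone S) 1 ∧
      Psi (ow M c1 c2) (M.Step (W a.1 a.2.1 (fun _ => false))) (Fa M) M.init lf
        (Finset.insertNone S) 2)
  have hsound : ∀ c1 ∈ Finset.Icc l (2 * l), ∀ c2 ∈ Finset.Icc (3 * l) (4 * l), ∀ lf S,
      ∀ a ∈ C c1 c2 lf S, W a.1 a.2.1 a.2.2 ∈ M.lang := by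
    rintro c1 hc1 c2 hc2 lf S ⟨x, y, z⟩ ha
    rw [Finset.mem_Icc] at hc1 hc2
    obtain ⟨-, p0, p1, p2⟩ := Finset.mem_filter.1 ha
    have q0 : Psi (ow M c1 c2) (M.Step (W x y z)) (Fa M) M.init lf
        (Finset.insertNone S) 0 := p0.congr (fun u v ho => indep0 M (by omega) _ _ _ _ u v ho)
    have q1 : Psi (ow M c1 c2) (M.Step (W x y z)) (Fa M) M.init lf
        (Finset.insertNone S) 1 :=
      p1.congr (fun u v ho => indep1 M (by omega) (by omega) _ _ _ _ u v ho)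
    have q2 : Psi (ow M c1 c2) (M.Step (W x y z)) (Fa M) M.init lf
        (Finset.insertNone S) 2 := p2.congr (fun u v ho => indep2 M (by omega) _ _ _ _ u v ho)
    obtain ⟨u, hu, hr⟩ := cert_sound (Finset.insertNone S) Finset.none_mem_insertNone
      (fun i => by
        fin_cases i
        · exact q0
        · exact q1
        · exact q2)
    exact mem_lang_of_reach M hr hu
  -- bound for the size of a single set
  let n : ℕ := Nat.findGreatest (fun m => m ^ 4 ≤ 3072 ^ l) (3072 ^ l)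
  have hn : n ^ 4 ≤ 3072 ^ l :=
    Nat.findGreatest_spec (P := fun m => m ^ 4 ≤ 3072 ^ l) (Nat.zero_le _) (by simp)
  have hnmax : ∀ m : ℕ, m ^ 4 ≤ 3072 ^ l → m ≤ n := fun m h4 =>
    Nat.le_findGreatest ((Nat.le_self_pow (by norm_num) _).trans h4) h4
  have hEn : E ≤ n := hnmax E hE
  have hCn : ∀ c1 ∈ Finset.Icc l (2 * l), ∀ c2 ∈ Finset.Icc (3 * l) (4 * l), ∀ lf S,
      ((C c1 c2 lf S).filter (fun a => sg a.1 a.2.1 a.2.2 = -1)).card ≤ 2 * n := by
    intro c1 hc1 c2 hc2 lf S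
    have h1 := odd_le (C c1 c2 lf S) n E hnmax (cyl_err
      (fun y z => Psi (ow M c1 c2) (M.Step (W (fun _ => false) y z)) (Fa M) M.init lf
        (Finset.insertNone S) 0)
      (fun x z => Psi (ow M c1 c2) (M.Step (W x (fun _ => false) z)) (Fa M) M.init lf
        (Finset.insertNone S) 1)
      (fun x y => Psi (ow M c1 c2) (M.Step (W x y (fun _ => false))) (Fa M) M.init lf
        (Finset.insertNone S) 2)) ?_
    · omega
    · refine le_trans (Finset.card_le_card ?_) hM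
      intro a ha
      rw [Finset.mem_filter] at ha ⊢
      exact ⟨Finset.mem_univ _, hsound c1 hc1 c2 hc2 lf S a ha.1, ha.2⟩
  -- the number of certificates
  set N := 168 * Fintype.card M.Q * l with hN
  let K : ℝ := ((2 : ℝ) ^ (lam + 14)) ^ R * (1 + 1 / (2 : ℝ) ^ (lam + 14)) ^ N
  have hKpos : 0 ≤ K := by positivity
  have hPS : ∀ c1 c2, ((Un M l c1 c2).powerset.filter (fun t => t.card ≤ R)).card ≤ ⌊K⌋₊ := by
    intro c1 c2
    refine Nat.le_floor ?_
    refine (card_small_subsets (Un M l c1 c2) R ((2 : ℝ) ^ (lam + 14))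
      (one_le_pow₀ (by norm_num))).trans ?_
    refine mul_le_mul_of_nonneg_left ?_ (by positivity)
    exact pow_le_pow_right₀ (by
      have : (0 : ℝ) ≤ 1 / (2 : ℝ) ^ (lam + 14) := by positivity
      linarith) (Un_card M (by omega) c1 c2)
  -- covering
  let Idx : Finset (ℕ × ℕ × Fin 3) :=
    Finset.Icc l (2 * l) ×ˢ (Finset.Icc (3 * l) (4 * l) ×ˢ (Finset.univ : Finset (Fin 3)))
  have hcover : Ch ⊆ Idx.biUnion (fun κ =>
        ((Un M l κ.1 κ.2.1).powerset.filter (fun t => t.card ≤ R)).biUnion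
          (fun S => (C κ.1 κ.2.1 κ.2.2 S).filter (fun a => sg a.1 a.2.1 a.2.2 = -1))) := by
    rintro ⟨x, y, z⟩ ha
    obtain ⟨T, c, hc, c1, hc1, c2, hc2, hb⟩ := hcheap _ ha
    obtain ⟨S, hS1, hS2, hS3⟩ := cert_complete (o := ow M c1 c2) (F := Fa M) (v0 := M.init)
      hc.1 hc.2.1 hc.2.2 hb
    refine Finset.mem_biUnion.2 ⟨(c1, c2, ow M c1 c2 (c T)), ?_, ?_⟩
    · simp only [Idx, Finset.mem_product, Finset.mem_univ, and_true]
      exact ⟨hc1, hc2⟩
    · refine Finset.mem_biUnion.2 ⟨S, ?_, ?_⟩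
      · rw [Finset.mem_filter, Finset.mem_powerset]
        refine ⟨?_, hS1⟩
        rintro ⟨v, i⟩ he
        obtain ⟨u, hu, ho, _⟩ := hS2 _ he
        exact mem_Un M hu ho
      · rw [Finset.mem_Icc] at hc1 hc2
        refine Finset.mem_filter.2 ⟨?_, hodd _ ha⟩
        refine Finset.mem_filter.2 ⟨Finset.mem_univ _, ?_, ?_, ?_⟩
        · exact (hS3 0).congr (fun u v ho => indep0 M (by omega) _ _ _ _ u v ho)
        · exact (hS3 1).congr (fun u v ho => indep1 M (by omega) (by omega) _ _ _ _ u v ho)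
        · exact (hS3 2).congr (fun u v ho => indep2 M (by omega) _ _ _ _ u v ho)
  have hcount : Ch.card ≤ (3 * (l + 1) ^ 2) * (⌊K⌋₊ * (2 * n)) := by
    refine (Finset.card_le_card hcover).trans ?_
    have hIdx : Idx.card = 3 * (l + 1) ^ 2 := by
      simp only [Idx, Finset.card_product, Nat.card_Icc, Finset.card_univ, Fintype.card_fin]
      rw [show 2 * l + 1 - l = l + 1 by omega, show 4 * l + 1 - 3 * l = l + 1 by omega]
      ring
    rw [← hIdx]
    refine Finset.card_biUnion_le_card_mul _ _ _ fun κ hκ => ?_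
    simp only [Idx, Finset.mem_product] at hκ
    refine (Finset.card_biUnion_le_card_mul _ _ (2 * n) fun S _ =>
      hCn _ hκ.1 _ hκ.2.1 _ _).trans ?_
    exact Nat.mul_le_mul_right _ (hPS _ _)
  -- the final computation
  have hnum := numeric_exp l (Fintype.card M.Q) R lam N hl hs hlam hR le_rfl
  have hcount' : (Ch.card : ℝ) ≤ 3 * ((l : ℝ) + 1) ^ 2 * (K * (2 * n)) := by
    have h1 : (Ch.card : ℝ) ≤ 3 * ((l : ℝ) + 1) ^ 2 * (⌊K⌋₊ * (2 * n)) := by exact_mod_cast hcount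
    refine h1.trans ?_
    refine mul_le_mul_of_nonneg_left ?_ (by positivity)
    exact mul_le_mul_of_nonneg_right (Nat.floor_le hKpos) (by positivity)
  have h8 : 8 * (Ch.card : ℝ) ≤ 48 * ((l : ℝ) + 1) ^ 2 * K * n := by
    calc 8 * (Ch.card : ℝ) ≤ 8 * (3 * ((l : ℝ) + 1) ^ 2 * (K * (2 * n))) := by linarith
      _ = _ := by ring
  have h84 : (8 * (Ch.card : ℝ)) ^ 4 ≤ (48 * ((l : ℝ) + 1) ^ 2 * K * n) ^ 4 :=
    pow_le_pow_left₀ (by positivity) h8 4
  have hn' : (n : ℝ) ^ 4 ≤ 3072 ^ l := by exact_mod_cast hn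
  refine h84.trans ?_
  have : (48 * ((l : ℝ) + 1) ^ 2 * K * n) ^ 4 =
      ((5308416 : ℝ) * ((l : ℝ) + 1) ^ 8 * K ^ 4) * (n : ℝ) ^ 4 := by ring
  rw [this]
  exact mul_le_mul hnum.le hn' (by positivity) (Real.exp_pos _).le

end Two

end Pool.Agent.L0h80.HP
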